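import Mathlib
import Pool.Agent.H257R3.SI.Stubs

namespace Pool.Agent.H96R3

open Pool.Agent.H257R3.SI

theorem A6_wt_nonneg {V : Type} [Fintype V] {ρ : ℝ} (h0 : 0 ≤ ρ) (h1 : ρ ≤ 1) (F : V → Bool) :
    0 ≤ wt ρ F := by
  unfold wt
  apply Finset.prod_nonneg
  intro v _
  split_ifs
  · exact h0
  · linarith

theorem A6_Ex_mono {V : Type} [Fintype V] [DecidableEq V] {ρ : ℝ} (h0 : 0 ≤ ρ) (h1 : ρ ≤ 1)
    {g g' : (V → Bool) → ℝ} (h : ∀ F, g F ≤ g' F) : Ex ρ g ≤ Ex ρ g' := by
  unfold Ex
  exact Finset.sum_le_sum fun F _ => mul_le_mul_of_nonneg_left (h F) (A6_wt_nonneg h0 h1 F)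

theorem a6 (h4 : St_A4) : St_A6 := by
  classical
  intro V _ _ ρ S D h0 h1 hS
  set d : (V → Bool) → ℝ := D.indicator fun _ => (1 : ℝ) with hd
  have hd0 : ∀ F, 0 ≤ d F := fun F => Set.indicator_nonneg (fun _ _ => zero_le_one) F
  have hd1 : ∀ F, d F ≤ 1 := by
    intro F
    rw [hd, Set.indicator_apply]
    split_ifs <;> norm_num
  set X : (V → Bool) → ℝ := fun F => ∑ v ∈ S, if F v = true then (1 : ℝ) else 0 with hX
  set x0 : ℝ := ρ * S.card / 4 with hx0
  have hPr : Pr ρ D = Ex ρ d := rfl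
  -- the sum of the probabilities
  have hsum : Ex ρ (fun F => X F * d F) ≤ x0 * Pr ρ D := by
    have e1 : Ex ρ (fun F => X F * d F) = ∑ v ∈ S, Pr ρ (D ∩ {F | F v = true}) := by
      unfold Pr Ex
      rw [Finset.sum_comm]
      refine Finset.sum_congr rfl fun F _ => ?_
      rw [← Finset.mul_sum]
      congr 1
      show (∑ v ∈ S, if F v = true then (1 : ℝ) else 0) * d F = _
      rw [Finset.sum_mul]
      refine Finset.sum_congr rfl fun v _ => ?_
      rw [hd, Set.indicator_apply, Set.indicator_apply]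
      have hmem : (F ∈ D ∩ {F | F v = true}) ↔ (F ∈ D ∧ F v = true) := Iff.rfl
      by_cases hF : F ∈ D
      · by_cases hv : F v = true
        · simp [hF, hv]
        · simp [hF, hv]
      · simp [hF]
    rw [e1]
    refine (Finset.sum_le_sum hS).trans (le_of_eq ?_)
    rw [Finset.sum_const, nsmul_eq_mul, hx0]
    ring
  -- lower bound
  have hlow : Real.exp (-x0) * Pr ρ D ≤ Ex ρ (fun F => Real.exp (-X F) * d F) := by
    have e1 : Ex ρ (fun F => Real.exp (-x0) * (1 + x0 - X F) * d F) =
        Real.exp (-x0) * ((1 + x0) * Pr ρ D - Ex ρ (fun F => X F * d F)) := by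
      rw [hPr]
      unfold Ex
      rw [Finset.mul_sum, ← Finset.sum_sub_distrib, Finset.mul_sum]
      refine Finset.sum_congr rfl fun F _ => ?_
      ring
    have e2 : Ex ρ (fun F => Real.exp (-x0) * (1 + x0 - X F) * d F) ≤
        Ex ρ (fun F => Real.exp (-X F) * d F) := by
      apply A6_Ex_mono h0 h1
      intro F
      apply mul_le_mul_of_nonneg_right _ (hd0 F)
      have h2 := Real.add_one_le_exp (x0 - X F)
      have h3 : Real.exp (-X F) = Real.exp (-x0) * Real.exp (x0 - X F) := by
        rw [← Real.exp_add]; congr 1; ring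
      rw [h3]
      exact mul_le_mul_of_nonneg_left (by linarith) (Real.exp_pos _).le
    refine le_trans ?_ e2
    rw [e1]
    apply mul_le_mul_of_nonneg_left _ (Real.exp_pos _).le
    linarith
  -- upper bound
  have hup : Ex ρ (fun F => Real.exp (-X F) * d F) ≤ Real.exp (-(ρ * S.card / 2)) := by
    have e1 : Ex ρ (fun F => Real.exp (-X F) * d F) ≤
        Ex ρ (fun F => ∏ v ∈ S, (fun b : Bool => if b = true then Real.exp (-1) else 1) (F v)) := by
      apply A6_Ex_mono h0 h1
      intro F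
      have h2 : Real.exp (-X F) = ∏ v ∈ S, (fun b : Bool => if b = true then Real.exp (-1) else 1) (F v) := by
        rw [hX, ← Finset.sum_neg_distrib, Real.exp_sum]
        refine Finset.prod_congr rfl fun v _ => ?_
        show Real.exp (-(if F v = true then (1:ℝ) else 0)) = if F v = true then Real.exp (-1) else 1
        split_ifs
        · rfl
        · rw [neg_zero, Real.exp_zero]
      rw [← h2]
      calc Real.exp (-X F) * d F ≤ Real.exp (-X F) * 1 :=
            mul_le_mul_of_nonneg_left (hd1 F) (Real.exp_pos _).le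
        _ = Real.exp (-X F) := mul_one _
    refine e1.trans ?_
    rw [h4 V ρ S (fun b : Bool => if b = true then Real.exp (-1) else 1)]
    have h5 : Real.exp (-1) ≤ 1 / 2 := by
      have h6 := Real.add_one_le_exp (1:ℝ)
      rw [Real.exp_neg, inv_eq_one_div]
      apply one_div_le_one_div_of_le (by norm_num) (by linarith)
    have h7 : ρ * Real.exp (-1) + (1 - ρ) ≤ 1 - ρ / 2 := by nlinarith
    have h8 : 0 ≤ ρ * Real.exp (-1) + (1 - ρ) := by
      have := Real.exp_pos (-1 : ℝ)
      nlinarith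
    have h9 : 1 - ρ / 2 ≤ Real.exp (-(ρ / 2)) := by
      have := Real.add_one_le_exp (-(ρ / 2))
      linarith
    have h10 : (ρ * Real.exp (-1) + (1 - ρ)) ^ S.card ≤ Real.exp (-(ρ / 2)) ^ S.card :=
      pow_le_pow_left₀ h8 (h7.trans h9) _
    simp only [if_true, Bool.false_eq_true, if_false, mul_one] at h10 ⊢
    refine h10.trans (le_of_eq ?_)
    rw [← Real.exp_nat_mul]
    congr 1
    ring
  have hfin := hlow.trans hup
  have h11 : Real.exp (-(ρ * S.card / 2)) = Real.exp (-x0) * Real.exp (-(ρ * S.card / 4)) := by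
    rw [← Real.exp_add]
    congr 1
    rw [hx0]
    ring
  rw [h11] at hfin
  exact le_of_mul_le_mul_left hfin (Real.exp_pos _)

end Pool.Agent.H96R3
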