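import Pool.Agent.H923R2.FP.Stubs

/-!
# The operator norm of `∑ c(g) g K g⁻¹`
-/

set_option autoImplicit false

open scoped ComplexConjugate ComplexOrder

namespace Pool.Agent.H923R2.FP.T_NI

open Pool.Agent.H923R2.FP

section

variable {A Q R : Type} [CStarAlgebra A] [Ring Q] [StarRing Q] [Algebra ℂ Q]
  [Ring R] [StarRing R] [Algebra ℂ R]

theorem star_G (π : Q →⋆ₐ[ℂ] A) (ρ : R →⋆ₐ[ℂ] A) (u : unitary Q) (a : unitary R) (g : F2) :
    star (GG π ρ u a g : A) = (GG π ρ u a g⁻¹ : A) := by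
  rw [map_inv]
  rfl

theorem star_Uc (X : R) (hX : star X = X) : ∀ m : ℕ, star (Uc X m) = Uc X m ∧
    star (Uc X (m + 1)) = Uc X (m + 1) ∧ Commute X (Uc X m) ∧ Commute X (Uc X (m + 1)) := by
  intro m
  induction m with
  | zero =>
    refine ⟨?_, ?_, ?_, ?_⟩
    · show star (1 : R) = 1
      simp
    · exact hX
    · show Commute X (1 : R)
      exact Commute.one_right X
    · show Commute X X
      exact Commute.refl X
  | succ m ih =>
    obtain ⟨h1, h2, h3, h4⟩ := ih
    refine ⟨h2, ?_, h4, ?_⟩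
    · show star (X * Uc X (m + 1) - Uc X m) = X * Uc X (m + 1) - Uc X m
      rw [star_sub, star_mul, h1, h2, hX, h4.eq]
    · show Commute X (X * Uc X (m + 1) - Uc X m)
      exact ((Commute.refl X).mul_right h4).sub_right h3

theorem star_PU (π : Q →⋆ₐ[ℂ] A) (ρ : R →⋆ₐ[ℂ] A) (u : unitary Q) (a : unitary R) (X : R)
    (hX : star X = X) (v : F2) (m : ℕ) : star (PU π ρ u a X v m) = PU π ρ u a X v m := by
  unfold PU
  rw [star_mul, star_mul, star_G, star_G, inv_inv, ← map_star, (star_Uc X hX m).1, mul_assoc]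

theorem norm_conj_le (π : Q →⋆ₐ[ℂ] A) (ρ : R →⋆ₐ[ℂ] A) (u : unitary Q) (a : unitary R) (g : F2)
    (x : A) : ‖(GG π ρ u a g : A) * x * (GG π ρ u a g⁻¹ : A)‖ ≤ ‖x‖ := by
  rw [CStarRing.norm_mul_coe_unitary, CStarRing.norm_coe_unitary_mul]

end

theorem t_NI (hT1 : S_T1) (hT2 : S_T2) (hC6 : S_C6) (hN3 : S_N3) (hN4 : S_N4)
    (hAD : S_AD) : S_NI := by
  intro A Q R _ _ _ _ _ _ _ τ π ρ s u a X p hτ hsys hgen hgad v c κ M B hRC hp
  classical
  obtain ⟨-, t2, t3, -, -, t6, -, t8⟩ := hT1 A τ hτ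
  obtain ⟨-, -, -, -, hPU⟩ := hAD A Q R π ρ s u a X v κ M
  set G : F2 → A := fun g => (GG π ρ u a g : A) with hG
  set P : ℕ → A := fun m => PU π ρ u a X v m with hP
  have hGs : ∀ g, star (G g) = G g⁻¹ := fun g => star_G π ρ u a g
  have hPs : ∀ m, star (P m) = P m := fun m => star_PU π ρ u a X hgad.Xsa v m
  have hPU' : ∀ m, P m = Uc (P 1) m := hPU
  have hP1 : ‖P 1‖ ≤ 2 := by
    refine (norm_conj_le π ρ u a v (ρ (Uc X 1))).trans ?_
    exact hgad.Xn
  obtain ⟨hc1, hc2⟩ := hC6 A (P 1) (hPs 1) hP1 M κ B hRC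
  have hB0 : 0 ≤ B := hRC.1
  have hn0 : 0 ≤ n2 c := Real.sqrt_nonneg _
  have hn2 : n2 c ^ 2 = ∑ g ∈ c.support, c g ^ 2 :=
    Real.sq_sqrt (Finset.sum_nonneg fun _ _ => sq_nonneg _)
  -- the words
  set e : (c.support × Fin M) → List (Lt Q R) := fun i => gw u a i.1.1 ++ pw u a X v i.2 with he
  set Mt : (c.support × Fin M) → (c.support × Fin M) → ℂ := fun i j =>
    if i.1 = j.1 then (c i.1.1 : ℂ) * κ i.2 j.2 else 0 with hMt
  have hev : ∀ i, ev (vl π ρ s) (e i) = G i.1.1 * P i.2 := by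
    intro i
    simp only [he]
    rw [ev_append, ev_gw, ev_pw]
  have hevs : ∀ i, star (ev (vl π ρ s) (e i)) = P i.2 * G (i.1.1)⁻¹ := by
    intro i
    rw [hev, star_mul, hPs, hGs]
  have hnoS : ∀ i, ∀ z ∈ e i, z.isS = false := by
    intro i z hz
    simp only [he, List.mem_append] at hz
    rcases hz with hz | hz
    · exact gw_noS u a _ z hz
    · exact pw_noS u a X v _ z hz
  have horth : ∀ i j, τ (star (ev (vl π ρ s) (e i)) * ev (vl π ρ s) (e j)) =
      if i = j then 1 else 0 := by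
    intro i j
    have h1 := hN4 A Q R τ π ρ s u a X p hτ hsys hgad v i.1.1 j.1.1 i.2 j.2 (by
      have h2 := hp i.1.1 i.1.2
      have h3 := hp j.1.1 j.1.2
      omega)
    rw [hev, hev]
    simp only [hG, hP]
    rw [h1]
    have h4 : (i.1.1 = j.1.1 ∧ (i.2 : ℕ) = j.2) ↔ i = j := by
      constructor
      · rintro ⟨h5, h6⟩
        exact Prod.ext (Subtype.ext h5) (Fin.ext h6)
      · rintro rfl
        exact ⟨rfl, rfl⟩
    simp only [h4]
  -- rows
  have hrow : ∀ i, ∑ j, Mt i j • star (ev (vl π ρ s) (e j)) =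
      (c i.1.1 : ℂ) • ((∑ n ∈ Finset.range M, κ i.2 n • P n) * G (i.1.1)⁻¹) := by
    intro i
    rw [Fintype.sum_prod_type, Finset.sum_eq_single i.1]
    · rw [Finset.sum_mul, Finset.smul_sum, Finset.sum_range]
      refine Finset.sum_congr rfl fun n _ => ?_
      rw [hevs]
      simp only [hMt, if_true]
      rw [smul_mul_assoc, smul_smul]
    · intro g _ hg
      refine Finset.sum_eq_zero fun n _ => ?_
      simp only [hMt]
      rw [if_neg (fun h => hg h.symm), zero_smul]
    · intro h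
      exact absurd (Finset.mem_univ _) h
  have hcol : ∀ j, ∑ i, Mt i j • ev (vl π ρ s) (e i) =
      (c j.1.1 : ℂ) • (G j.1.1 * ∑ m ∈ Finset.range M, κ m j.2 • P m) := by
    intro j
    rw [Fintype.sum_prod_type, Finset.sum_eq_single j.1]
    · rw [Finset.mul_sum, Finset.smul_sum, Finset.sum_range]
      refine Finset.sum_congr rfl fun m _ => ?_
      rw [hev]
      simp only [hMt, if_true]
      rw [mul_smul_comm, smul_smul]
    · intro g _ hg
      refine Finset.sum_eq_zero fun n _ => ?_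
      simp only [hMt]
      rw [if_neg hg, zero_smul]
    · intro h
      exact absurd (Finset.mem_univ _) h
  have hrow2 : ‖∑ i, star (∑ j, Mt i j • star (ev (vl π ρ s) (e j))) *
      (∑ j, Mt i j • star (ev (vl π ρ s) (e j)))‖ ≤ (B * n2 c) ^ 2 := by
    have h1 : ∑ i, star (∑ j, Mt i j • star (ev (vl π ρ s) (e j))) *
        (∑ j, Mt i j • star (ev (vl π ρ s) (e j))) =
        ∑ g : c.support, ((c g.1 ^ 2 : ℝ) : ℂ) • (G g.1 *
          (∑ m ∈ Finset.range M, star (∑ n ∈ Finset.range M, κ m n • P n) *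
            (∑ n ∈ Finset.range M, κ m n • P n)) * G (g.1)⁻¹) := by
      rw [Fintype.sum_prod_type]
      refine Finset.sum_congr rfl fun g _ => ?_
      rw [Finset.mul_sum, Finset.sum_mul, Finset.smul_sum, Finset.sum_range]
      refine Finset.sum_congr rfl fun m _ => ?_
      rw [hrow, star_smul, star_mul, hGs, inv_inv, smul_mul_smul_comm]
      congr 1
      · simp [sq]
      · noncomm_ring
    rw [h1]
    calc _ ≤ ∑ g : c.support, c g.1 ^ 2 * B ^ 2 := by
          refine (norm_sum_le _ _).trans (Finset.sum_le_sum fun g _ => ?_)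
          rw [norm_smul]
          have h2 : ‖((c g.1 ^ 2 : ℝ) : ℂ)‖ = c g.1 ^ 2 := by
            rw [Complex.norm_real, Real.norm_of_nonneg (sq_nonneg _)]
          rw [h2]
          refine mul_le_mul_of_nonneg_left ?_ (sq_nonneg _)
          refine (norm_conj_le π ρ u a g.1 _).trans ?_
          have h3 := hc1
          simp only [← hPU'] at h3
          exact h3
      _ = (B * n2 c) ^ 2 := by
          rw [mul_pow, hn2, ← Finset.sum_mul, mul_comm]
          congr 1
          exact Finset.sum_coe_sort c.support (fun g => c g ^ 2)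
  have hcol2 : ‖∑ j, (∑ i, Mt i j • ev (vl π ρ s) (e i)) *
      star (∑ i, Mt i j • ev (vl π ρ s) (e i))‖ ≤ (B * n2 c) ^ 2 := by
    have h1 : ∑ j, (∑ i, Mt i j • ev (vl π ρ s) (e i)) *
        star (∑ i, Mt i j • ev (vl π ρ s) (e i)) =
        ∑ g : c.support, ((c g.1 ^ 2 : ℝ) : ℂ) • (G g.1 *
          (∑ n ∈ Finset.range M, (∑ m ∈ Finset.range M, κ m n • P m) *
            star (∑ m ∈ Finset.range M, κ m n • P m)) * G (g.1)⁻¹) := by
      rw [Fintype.sum_prod_type]
      refine Finset.sum_congr rfl fun g _ => ?_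
      rw [Finset.mul_sum, Finset.sum_mul, Finset.smul_sum, Finset.sum_range]
      refine Finset.sum_congr rfl fun m _ => ?_
      rw [hcol, star_smul, star_mul, hGs, smul_mul_smul_comm]
      congr 1
      · simp [sq]
      · noncomm_ring
    rw [h1]
    calc _ ≤ ∑ g : c.support, c g.1 ^ 2 * B ^ 2 := by
          refine (norm_sum_le _ _).trans (Finset.sum_le_sum fun g _ => ?_)
          rw [norm_smul]
          have h2 : ‖((c g.1 ^ 2 : ℝ) : ℂ)‖ = c g.1 ^ 2 := by
            rw [Complex.norm_real, Real.norm_of_nonneg (sq_nonneg _)]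
          rw [h2]
          refine mul_le_mul_of_nonneg_left ?_ (sq_nonneg _)
          refine (norm_conj_le π ρ u a g.1 _).trans ?_
          have h3 := hc2
          simp only [← hPU'] at h3
          exact h3
      _ = (B * n2 c) ^ 2 := by
          rw [mul_pow, hn2, ← Finset.sum_mul, mul_comm]
          congr 1
          exact Finset.sum_coe_sort c.support (fun g => c g ^ 2)
  have hT : ∑ i, ∑ j, Mt i j • (ev (vl π ρ s) (e i) * s * star (ev (vl π ρ s) (e j))) =
      AdK π ρ u a X v s c κ M := by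
    have h1 : ∀ i, ∑ j, Mt i j • (ev (vl π ρ s) (e i) * s * star (ev (vl π ρ s) (e j))) =
        (c i.1.1 : ℂ) • (G i.1.1 * (∑ n ∈ Finset.range M, κ i.2 n • (P i.2 * s * P n)) *
          G (i.1.1)⁻¹) := by
      intro i
      have h2 : ∑ j, Mt i j • (ev (vl π ρ s) (e i) * s * star (ev (vl π ρ s) (e j))) =
          ev (vl π ρ s) (e i) * s * ∑ j, Mt i j • star (ev (vl π ρ s) (e j)) := by
        rw [Finset.mul_sum]
        refine Finset.sum_congr rfl fun j _ => ?_
        rw [mul_smul_comm]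
      rw [h2, hrow, mul_smul_comm, hev]
      congr 1
      rw [Finset.sum_mul, Finset.mul_sum, Finset.mul_sum, Finset.sum_mul]
      refine Finset.sum_congr rfl fun n _ => ?_
      rw [smul_mul_assoc, mul_smul_comm, mul_smul_comm, smul_mul_assoc]
      congr 1
      noncomm_ring
    rw [Finset.sum_congr rfl fun i _ => h1 i, Fintype.sum_prod_type]
    unfold AdK
    rw [← Finset.sum_coe_sort c.support]
    refine Finset.sum_congr rfl fun g _ => ?_
    unfold KK
    rw [Finset.mul_sum, Finset.sum_mul, Finset.smul_sum, Finset.sum_range]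
  -- the inequality on expressions
  have hK0 : 0 ≤ 2 * (B * n2 c) := by positivity
  have hex : ∀ ξ : Ex Q R, nt τ (AdK π ρ u a X v s c κ M * evx (vl π ρ s) ξ) ≤
      2 * (B * n2 c) * nt τ (evx (vl π ρ s) ξ) := by
    intro ξ
    rw [← hT]
    exact hN3 A Q R τ π ρ s hτ hsys (c.support × Fin M) e Mt (B * n2 c)
      (mul_nonneg hB0 hn0) hnoS horth hrow2 hcol2 ξ
  have hall : ∀ ξ : A, nt τ (AdK π ρ u a X v s c κ M * ξ) ≤ 2 * (B * n2 c) * nt τ ξ := by
    intro ξ
    refine le_of_forall_pos_le_add fun ε hε => ?_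
    set T := AdK π ρ u a X v s c κ M with hTd
    set L : ℝ := 2 * (B * n2 c) + ‖T‖ + 1 with hL
    have hL0 : 0 < L := by positivity
    obtain ⟨x, hx⟩ := hgen ξ (ε / L) (by positivity)
    set η := evx (vl π ρ s) x with hη
    have h1 : nt τ (T * ξ) ≤ nt τ (T * η) + nt τ (T * (ξ - η)) := by
      have := t2 (T * η) (T * (ξ - η))
      rwa [← mul_add, add_sub_cancel] at this
    have h2 : nt τ (T * (ξ - η)) ≤ ‖T‖ * (ε / L) :=
      (t3 T (ξ - η)).trans (mul_le_mul_of_nonneg_left ((t6 _).trans hx.le) (norm_nonneg _))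
    have h3 : nt τ η ≤ nt τ ξ + ε / L := by
      have h4 := t2 ξ (η - ξ)
      rw [add_sub_cancel] at h4
      have h5 : nt τ (η - ξ) ≤ ε / L := by
        refine (t6 _).trans ?_
        rw [norm_sub_rev]
        exact hx.le
      linarith
    have h6 := hex x
    have h7 : 2 * (B * n2 c) * nt τ η ≤ 2 * (B * n2 c) * (nt τ ξ + ε / L) :=
      mul_le_mul_of_nonneg_left h3 hK0
    have h8 : (2 * (B * n2 c) + ‖T‖) * (ε / L) ≤ ε := by
      rw [← mul_div_assoc, div_le_iff₀ hL0]
      have : 2 * (B * n2 c) + ‖T‖ ≤ L := by linarith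
      nlinarith
    nlinarith
  have := hT2 A τ hτ _ _ hK0 hall
  rw [mul_assoc]
  exact this

end Pool.Agent.H923R2.FP.T_NI
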